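import Pool.Agent.R252.DDRc
import Pool.Agent.R252.DDRd

/-!
# Ratios of the numbers of permutations with exactly one double descent

For all `i, j ≥ 2` the ratio `dd({i};n) / dd({j};n)` converges to a positive real number. More
precisely `dd({i};n) / n! ~ C_i ρ^{-n}` with `C_i > 0` and `ρ = 2π / (3√3)` independent of `i`.
-/

set_option autoImplicit false

namespace Pool.Agent.Results.MP_a5b9bd_co.RatioLimit

open Filter Topology Equiv Finset
open Pool.Agent.R252.DDR Pool.Agent.R252.DDRd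

/-- `i` is a double descent of `w = [w_1, …, w_n]`: `2 ≤ i ≤ n - 1` and `w_{i-1} > w_i > w_{i+1}`.
Here `w` is a permutation of `Fin n = {0, …, n-1}` and the entry `w_k` of the problem is
`w ⟨k - 1, _⟩` (plus one). -/
def IsDoubleDescent {n : ℕ} (w : Perm (Fin n)) (i : ℕ) : Prop :=
  2 ≤ i ∧ ∃ h : i < n,
    w ⟨i - 1, by omega⟩ < w ⟨i - 2, by omega⟩ ∧ w ⟨i, h⟩ < w ⟨i - 1, by omega⟩

/-- the double descent set of `w` -/
def DDes {n : ℕ} (w : Perm (Fin n)) : Set ℕ := {i | IsDoubleDescent w i}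

/-- `dd(I;n)`: the number of permutations of `n` letters with double descent set `I` -/
noncomputable def dd (I : Finset ℕ) (n : ℕ) : ℕ :=
  Nat.card {w : Perm (Fin n) // DDes w = (I : Set ℕ)}

theorem idd_iff {n : ℕ} (w : Perm (Fin n)) (i : ℕ) :
    IsDoubleDescent w i ↔ 2 ≤ i ∧ Ds w (i - 2) ∧ Ds w (i - 1) := by
  constructor
  · rintro ⟨h1, h2, h3, h4⟩
    refine ⟨h1, ⟨by omega, ?_⟩, ⟨by omega, ?_⟩⟩
    · have : (⟨i - 2 + 1, by omega⟩ : Fin n) = ⟨i - 1, by omega⟩ := by
        rw [Fin.mk.injEq]; omega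
      rw [this]
      exact h3
    · have : (⟨i - 1 + 1, by omega⟩ : Fin n) = ⟨i, h2⟩ := by
        rw [Fin.mk.injEq]; omega
      rw [this]
      exact h4
  · rintro ⟨h1, ⟨h2, h3⟩, ⟨h4, h5⟩⟩
    have hi : i < n := by omega
    refine ⟨h1, hi, ?_, ?_⟩
    · have : (⟨i - 2 + 1, h2⟩ : Fin n) = ⟨i - 1, by omega⟩ := by
        rw [Fin.mk.injEq]; omega
      rw [this] at h3
      exact h3
    · have : (⟨i - 1 + 1, h4⟩ : Fin n) = ⟨i, hi⟩ := by
        rw [Fin.mk.injEq]; omega
      rw [this] at h5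
      exact h5

theorem ddes_iff {n : ℕ} (w : Perm (Fin n)) {i : ℕ} (hi : 2 ≤ i) :
    DDes w = (({i} : Finset ℕ) : Set ℕ) ↔ One i (Ds w) := by
  rw [Finset.coe_singleton, Set.ext_iff]
  unfold DDes Pool.Agent.R252.DDR.One
  constructor
  · intro h
    have h1 := (idd_iff w i).1 ((h i).2 rfl)
    refine ⟨h1.2.1, h1.2.2, ?_⟩
    rintro j hj ⟨h2, h3⟩
    have h4 : IsDoubleDescent w (j + 2) := (idd_iff w (j + 2)).2 ⟨by omega, h2, h3⟩
    have h5 : j + 2 = i := (h (j + 2)).1 h4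
    omega
  · rintro ⟨h1, h2, h3⟩ j
    rw [Set.mem_ofPred_eq, idd_iff, Set.mem_singleton_iff]
    constructor
    · rintro ⟨h4, h5, h6⟩
      by_contra hne
      apply h3 (j - 2) (by omega)
      refine ⟨h5, ?_⟩
      rwa [show j - 2 + 1 = j - 1 by omega]
    · rintro rfl
      exact ⟨hi, h1, h2⟩

theorem dd_eq {i : ℕ} (hi : 2 ≤ i) (n : ℕ) : (dd {i} n : ℝ) / n.factorial = pr n (One i) := by
  classical
  unfold dd pr cnt
  rw [Nat.card_eq_fintype_card, Fintype.card_subtype]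
  congr 3
  ext w
  simp only [Finset.mem_filter, Finset.mem_univ, true_and]
  exact ddes_iff w hi

theorem dn_le_one (n : ℕ) : dn n ≤ 1 := by
  unfold dn
  rw [← pr_true n (Q := fun _ => True) (fun _ => trivial)]
  exact pr_mono fun _ _ => trivial

theorem dn_nonneg (n : ℕ) : 0 ≤ dn n := pr_nonneg _ _

theorem dn_asympt : ∃ c : ℝ, 0 < c ∧ Tendsto (fun n => dn n * rho ^ n) atTop (𝓝 c) := by
  apply asympt dn dn_zero dn_nonneg dn_le_one
  intro n hn
  exact dn_rec hn

/-- the limit constant (up to the common factor) -/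
noncomputable def HH (M : ℕ) (Q : (ℕ → Prop) → Prop) : ℝ :=
  ∑' k : ℕ, cc k * (bb M Q k * rho ^ (M + k))

theorem rho_pos : 0 < rho := by linarith [rho_gt]

theorem bb_le' {M : ℕ} (hM : 1 ≤ M) (Q : (ℕ → Prop) → Prop) (k : ℕ) :
    bb M Q k ≤ 1 / k.factorial := by
  refine (bb_le hM Q k).trans ?_
  apply one_div_le_one_div_of_le
  · exact_mod_cast k.factorial_pos
  · exact_mod_cast Nat.factorial_le (Nat.le_succ k)

theorem term_le {M : ℕ} (hM : 1 ≤ M) (Q : (ℕ → Prop) → Prop) (k : ℕ) :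
    |cc k * (bb M Q k * rho ^ (M + k))| ≤ rho ^ M * (rho ^ k / k.factorial) := by
  rw [abs_mul, abs_of_nonneg (mul_nonneg (bb_nonneg M Q k) (pow_nonneg rho_pos.le _))]
  have h1 := abs_cc k
  have h2 := bb_le' hM Q k
  have h3 : 0 ≤ bb M Q k * rho ^ (M + k) := mul_nonneg (bb_nonneg M Q k) (pow_nonneg rho_pos.le _)
  calc |cc k| * (bb M Q k * rho ^ (M + k)) ≤ 1 * (bb M Q k * rho ^ (M + k)) :=
        mul_le_mul_of_nonneg_right h1 h3
    _ ≤ 1 / k.factorial * rho ^ (M + k) := by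
        rw [one_mul]
        exact mul_le_mul_of_nonneg_right h2 (pow_nonneg rho_pos.le _)
    _ = rho ^ M * (rho ^ k / k.factorial) := by
        rw [pow_add]
        ring

theorem summable_bound (M : ℕ) : Summable (fun k : ℕ => rho ^ M * (rho ^ k / k.factorial)) :=
  (Real.summable_pow_div_factorial rho).mul_left _

theorem lim_XX {M : ℕ} (hM : 1 ≤ M) (Q : (ℕ → Prop) → Prop) {c : ℝ}
    (hc : Tendsto (fun n => dn n * rho ^ n) atTop (𝓝 c)) :
    Tendsto (fun n => XX M Q 0 n * rho ^ n) atTop (𝓝 (HH M Q * c)) := by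
  obtain ⟨B, hB⟩ := hc.bddAbove_range
  have hB' : ∀ n, dn n * rho ^ n ≤ B := fun n => hB ⟨n, rfl⟩
  have hu0 : ∀ n, 0 ≤ dn n * rho ^ n := fun n => mul_nonneg (dn_nonneg n) (pow_nonneg rho_pos.le _)
  have hB0 : 0 ≤ B := (hu0 0).trans (hB' 0)
  set f : ℕ → ℕ → ℝ := fun n k => cc k * (bb M Q k * rho ^ (M + k)) *
    (if M + k ≤ n then dn (n - M - k) * rho ^ (n - M - k) else 0) with hf
  have hlim : Tendsto (fun n => ∑' k, f n k) atTop
      (𝓝 (∑' k, cc k * (bb M Q k * rho ^ (M + k)) * c)) := by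
    apply tendsto_tsum_of_dominated_convergence ((summable_bound M).mul_right B)
    · intro k
      apply Tendsto.const_mul
      have h1 : Tendsto (fun n => dn (n - (M + k)) * rho ^ (n - (M + k))) atTop (𝓝 c) :=
        hc.comp (tendsto_sub_atTop_nat (M + k))
      refine h1.congr' ?_
      filter_upwards [eventually_ge_atTop (M + k)] with n hn
      rw [if_pos hn, show n - M - k = n - (M + k) by omega]
    · filter_upwards with n k
      rw [Real.norm_eq_abs, hf, abs_mul]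
      have h1 := term_le hM Q k
      have h2 : |if M + k ≤ n then dn (n - M - k) * rho ^ (n - M - k) else 0| ≤ B := by
        split_ifs
        · rw [abs_of_nonneg (hu0 _)]
          exact hB' _
        · rw [abs_zero]
          exact hB0
      exact mul_le_mul h1 h2 (abs_nonneg _) ((abs_nonneg _).trans h1)
  rw [tsum_mul_right] at hlim
  refine hlim.congr' ?_
  filter_upwards [eventually_ge_atTop (max M 1)] with n hn
  have hn1 : M ≤ n := (le_max_left _ _).trans hn
  have hn2 : 1 ≤ n := (le_max_right _ _).trans hn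
  rw [expand hM Q hn1 (N := n) (by omega) hn2, Finset.sum_mul]
  have h3 : ∀ k, f n k = cc k * ee M Q n k * rho ^ n := by
    intro k
    rw [hf]
    unfold ee
    simp only
    split_ifs with h4
    · have h5 : rho ^ n = rho ^ (M + k) * rho ^ (n - M - k) := by
        rw [← pow_add]
        congr 1
        omega
      rw [h5]
      ring
    · simp
  rw [tsum_eq_sum (s := range (3 * n))]
  · exact Finset.sum_congr rfl fun k _ => h3 k
  · intro k hk
    rw [mem_range, not_lt] at hk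
    rw [h3, ee_zero Q (by omega)]
    simp

theorem HH_pos {M : ℕ} (hM : 2 ≤ M) {Q : (ℕ → Prop) → Prop}
    (hQ : ∀ P, Q (tr M P) → P (M - 2)) (hpos : 0 < bb M Q 0) : 0 < HH M Q := by
  set t : ℕ → ℝ := fun k => cc k * (bb M Q k * rho ^ (M + k)) with ht
  have hsum : Summable t := by
    refine Summable.of_norm_bounded (summable_bound M) fun k => ?_
    rw [Real.norm_eq_abs]
    exact term_le (by omega) Q k
  have hstep : ∀ N, ∑ k ∈ range (3 * (N + 1)), t k = ∑ k ∈ range (3 * N), t k +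
      rho ^ (M + 3 * N) * (bb M Q (3 * N) - rho * bb M Q (3 * N + 1)) := by
    intro N
    rw [show 3 * (N + 1) = 3 * N + 1 + 1 + 1 by ring, sum_range_succ, sum_range_succ,
      sum_range_succ]
    simp only [ht]
    rw [cc_zero, cc_one, show 3 * N + 1 + 1 = 3 * N + 2 by ring, cc_two,
      show M + (3 * N + 1) = M + 3 * N + 1 by ring, pow_succ]
    ring
  have hinc : ∀ N, rho ^ (M + 3 * N) * ((1 - rho / 2) * bb M Q (3 * N)) ≤
      rho ^ (M + 3 * N) * (bb M Q (3 * N) - rho * bb M Q (3 * N + 1)) := by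
    intro N
    apply mul_le_mul_of_nonneg_left _ (pow_nonneg rho_pos.le _)
    have h1 := bb_half hM hQ (3 * N)
    have h2 := mul_le_mul_of_nonneg_left h1 rho_pos.le
    linarith
  have hr : 0 < 1 - rho / 2 := by linarith [rho_lt]
  have hlow : ∀ N, rho ^ M * ((1 - rho / 2) * bb M Q 0) ≤ ∑ k ∈ range (3 * (N + 1)), t k := by
    intro N
    induction N with
    | zero =>
      rw [hstep 0]
      have := hinc 0
      simpa using this
    | succ N ih =>
      rw [hstep (N + 1)]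
      have h1 := hinc (N + 1)
      have h2 : 0 ≤ rho ^ (M + 3 * (N + 1)) * ((1 - rho / 2) * bb M Q (3 * (N + 1))) :=
        mul_nonneg (pow_nonneg rho_pos.le _) (mul_nonneg hr.le (bb_nonneg _ _ _))
      linarith
  have hlim : Tendsto (fun N : ℕ => ∑ k ∈ range (3 * (N + 1)), t k) atTop (𝓝 (∑' k, t k)) := by
    refine hsum.hasSum.tendsto_sum_nat.comp ?_
    exact tendsto_atTop_mono (fun N => by omega : ∀ N : ℕ, N ≤ 3 * (N + 1)) tendsto_id
  have h1 := ge_of_tendsto' hlim hlow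
  have h2 : 0 < rho ^ M * ((1 - rho / 2) * bb M Q 0) :=
    mul_pos (pow_pos rho_pos _) (mul_pos hr hpos)
  exact lt_of_lt_of_le h2 h1

/-- **Main theorem.** For all `i, j ≥ 2` the ratio `dd({i};n) / dd({j};n)` converges to a positive
real number as `n → ∞`. Moreover there are constants `C_i > 0` such that
`(dd({i};n) / n!) (2π / (3√3))^n → C_i` for every `i ≥ 2`. -/
theorem result :
    (∀ i j : ℕ, 2 ≤ i → 2 ≤ j → ∃ L : ℝ, 0 < L ∧
      Tendsto (fun n : ℕ => (dd {i} n : ℝ) / (dd {j} n : ℝ)) atTop (𝓝 L)) ∧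
    (∃ C : ℕ → ℝ, ∀ i : ℕ, 2 ≤ i → 0 < C i ∧
      Tendsto (fun n : ℕ => (dd {i} n : ℝ) / (n.factorial : ℝ) *
        (2 * Real.pi / (3 * Real.sqrt 3)) ^ n) atTop (𝓝 (C i))) := by
  obtain ⟨c, hc0, hc⟩ := dn_asympt
  have key : ∀ i : ℕ, 2 ≤ i → 0 < HH (i + 1) (One i) * c ∧
      Tendsto (fun n : ℕ => (dd {i} n : ℝ) / (n.factorial : ℝ) * rho ^ n) atTop
        (𝓝 (HH (i + 1) (One i) * c)) := by
    intro i hi
    constructor
    · exact mul_pos (HH_pos (by omega) (fun P h => One_last hi P h) (bb_pos hi)) hc0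
    · refine (lim_XX (by omega) (One i) hc).congr fun n => ?_
      rw [dd_eq hi]
      congr 1
      unfold XX
      exact (pr_congr fun w => One_iff hi (Ds w)).symm
  refine ⟨?_, ⟨fun i => HH (i + 1) (One i) * c, fun i hi => key i hi⟩⟩
  intro i j hi hj
  obtain ⟨hi1, hi2⟩ := key i hi
  obtain ⟨hj1, hj2⟩ := key j hj
  refine ⟨_, div_pos hi1 hj1, (hi2.div hj2 hj1.ne').congr fun n => ?_⟩
  have h1 : (n.factorial : ℝ) ≠ 0 := by exact_mod_cast n.factorial_ne_zero
  have h2 : rho ^ n ≠ 0 := (pow_pos rho_pos n).ne'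
  simp only [Pi.div_apply]
  rw [mul_div_mul_right _ _ h2, div_div_div_cancel_right₀ h1]

end Pool.Agent.Results.MP_a5b9bd_co.RatioLimit
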